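import Mathlib

set_option autoImplicit false

/-!
Weights on the vertices of a graph in which two distinct vertices have at most `t` common
neighbours.  A vertex of weight `B` is *full*.  The operation `upd` removes the weights of a set
`R` and pushes them to a vertex `s` and to its neighbours.
-/

open Classical Finset

namespace Pool.Agent.Lib.MP_4f8534_co.Codeg

noncomputable section

variable {V : Type} [Fintype V]

/-- open neighbourhood -/
def nb (G : SimpleGraph V) (d : V) : Finset V := univ.filter (fun x => G.Adj d x)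

/-- closed neighbourhood -/
def cn (G : SimpleGraph V) (d : V) : Finset V := univ.filter (fun x => x = d ∨ G.Adj d x)

theorem mem_nb {G : SimpleGraph V} {d x : V} : x ∈ nb G d ↔ G.Adj d x := by simp [nb]

theorem mem_cn {G : SimpleGraph V} {d x : V} : x ∈ cn G d ↔ x = d ∨ G.Adj d x := by simp [cn]

/-- the full vertices of `R` -/
def fl (B : ℕ) (ω : V → ℕ) (R : Finset V) : Finset V := R.filter (fun c => ω c = B)

/-- the number of full vertices of `R` adjacent to `x` -/
def inc (G : SimpleGraph V) (B : ℕ) (ω : V → ℕ) (R : Finset V) (x : V) : ℕ :=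
  ((fl B ω R).filter (fun c => G.Adj c x)).card

/-- the new weights -/
def upd (G : SimpleGraph V) (B σ : ℕ) (ω : V → ℕ) (R : Finset V) (s x : V) : ℕ :=
  if x ∈ R then 0 else if x = s then min B (ω s + σ)
    else if G.Adj s x then min B (ω x + inc G B ω R x) else ω x

/-- bounded codegree -/
def Cod (G : SimpleGraph V) (t : ℕ) : Prop :=
  ∀ a b, a ≠ b → (univ.filter (fun x => G.Adj a x ∧ G.Adj b x)).card ≤ t

theorem upd_le {G : SimpleGraph V} {B σ : ℕ} {ω : V → ℕ} {R : Finset V} {s : V}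
    (hle : ∀ x, ω x ≤ B) (x : V) : upd G B σ ω R s x ≤ B := by
  unfold upd
  split_ifs
  · exact Nat.zero_le _
  · exact min_le_left _ _
  · exact min_le_left _ _
  · exact hle x

theorem le_upd {G : SimpleGraph V} {B σ : ℕ} {ω : V → ℕ} {R : Finset V} {s : V}
    (hle : ∀ x, ω x ≤ B) {x : V} (hx : x ∉ R) : ω x ≤ upd G B σ ω R s x := by
  unfold upd
  rw [if_neg hx]
  split_ifs with h1 h2
  · subst h1
    exact le_min (hle _) (Nat.le_add_right _ _)
  · exact le_min (hle _) (Nat.le_add_right _ _)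
  · exact le_rfl

theorem upd_full {G : SimpleGraph V} {B σ : ℕ} {ω : V → ℕ} {R : Finset V} {s : V}
    (hle : ∀ x, ω x ≤ B) {x : V} (hx : x ∉ R) (h : ω x = B) : upd G B σ ω R s x = B :=
  le_antisymm (upd_le hle x) (h.symm.le.trans (le_upd hle hx))

/-- the increase -/
def del (G : SimpleGraph V) (B σ : ℕ) (ω : V → ℕ) (R : Finset V) (s x : V) : ℕ :=
  if x ∈ R then 0 else upd G B σ ω R s x - ω x

theorem upd_add {G : SimpleGraph V} {B σ : ℕ} {ω : V → ℕ} {R : Finset V} {s : V}
    (hle : ∀ x, ω x ≤ B) (x : V) :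
    upd G B σ ω R s x + (if x ∈ R then ω x else 0) = ω x + del G B σ ω R s x := by
  unfold del
  by_cases hx : x ∈ R
  · simp [hx, upd]
  · simp only [hx, if_false]
    have := le_upd (G := G) (σ := σ) (s := s) hle hx
    omega

theorem sum_upd {G : SimpleGraph V} {B σ : ℕ} {ω : V → ℕ} {R : Finset V} {s : V}
    (hle : ∀ x, ω x ≤ B) (A : Finset V) :
    ∑ x ∈ A, upd G B σ ω R s x + ∑ x ∈ A.filter (· ∈ R), ω x
      = ∑ x ∈ A, ω x + ∑ x ∈ A, del G B σ ω R s x := by
  rw [Finset.sum_filter, ← Finset.sum_add_distrib, ← Finset.sum_add_distrib]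
  exact Finset.sum_congr rfl (fun x _ => upd_add hle x)

theorem del_s_le {G : SimpleGraph V} {B σ : ℕ} {ω : V → ℕ} {R : Finset V} {s : V} :
    del G B σ ω R s s ≤ σ := by
  unfold del upd
  by_cases h : s ∈ R
  · rw [if_pos h]
    exact Nat.zero_le _
  · rw [if_neg h, if_neg h, if_pos rfl]
    have := min_le_right B (ω s + σ)
    omega

theorem del_s_le' {G : SimpleGraph V} {B σ : ℕ} {ω : V → ℕ} {R : Finset V} {s : V}
    (hle : ∀ x, ω x ≤ B) : del G B σ ω R s s + ω s ≤ B := by
  have h := hle s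
  unfold del upd
  by_cases h1 : s ∈ R
  · rw [if_pos h1]
    omega
  · rw [if_neg h1, if_neg h1, if_pos rfl]
    have := min_le_left B (ω s + σ)
    omega

theorem del_nb_le {G : SimpleGraph V} {B σ : ℕ} {ω : V → ℕ} {R : Finset V} {s x : V}
    (hx : G.Adj s x) : del G B σ ω R s x ≤ inc G B ω R x := by
  unfold del upd
  have hxs : x ≠ s := fun e => by subst e; exact G.loopless.irrefl _ hx
  by_cases h : x ∈ R
  · rw [if_pos h]
    exact Nat.zero_le _
  · rw [if_neg h, if_neg h, if_neg hxs, if_pos hx]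
    have := min_le_right B (ω x + inc G B ω R x)
    omega

theorem del_off {G : SimpleGraph V} {B σ : ℕ} {ω : V → ℕ} {R : Finset V} {s x : V}
    (hxs : x ≠ s) (hx : ¬ G.Adj s x) : del G B σ ω R s x = 0 := by
  unfold del upd
  by_cases h : x ∈ R
  · rw [if_pos h]
  · rw [if_neg h, if_neg h, if_neg hxs, if_neg hx]
    omega

theorem upd_off {G : SimpleGraph V} {B σ : ℕ} {ω : V → ℕ} {R : Finset V} {s x : V}
    (hR : x ∉ R) (hxs : x ≠ s) (hx : ¬ G.Adj s x) : upd G B σ ω R s x = ω x := by
  unfold upd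
  simp [hxs, hx, hR]

/-- double counting: the total of `inc` over the neighbours of `s` -/
theorem sum_inc_le {G : SimpleGraph V} {t B : ℕ} (hcod : Cod G t) {ω : V → ℕ} {R : Finset V}
    {s : V} (hs : s ∉ R) : ∑ x ∈ nb G s, inc G B ω R x ≤ t * (fl B ω R).card := by
  have h1 : ∀ x, inc G B ω R x = ∑ c ∈ fl B ω R, if G.Adj c x then 1 else 0 := by
    intro x
    rw [inc, Finset.card_filter]
  simp only [h1]
  rw [Finset.sum_comm]
  have h2 : ∀ c ∈ fl B ω R, ∑ x ∈ nb G s, (if G.Adj c x then 1 else 0) ≤ t := by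
    intro c hc
    have hcs : c ≠ s := by
      rintro rfl
      exact hs (Finset.mem_filter.1 hc).1
    rw [← Finset.card_filter]
    refine le_trans (Finset.card_le_card ?_) (hcod c s hcs)
    intro x hx
    rw [Finset.mem_filter, mem_nb] at hx
    simp [hx.1, hx.2]
  calc ∑ c ∈ fl B ω R, ∑ x ∈ nb G s, (if G.Adj c x then 1 else 0) ≤ ∑ c ∈ fl B ω R, t :=
        Finset.sum_le_sum h2
    _ = t * (fl B ω R).card := by rw [Finset.sum_const, smul_eq_mul, mul_comm]

/-- the total increase over the neighbours of `s` -/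
theorem sum_del_nb_le {G : SimpleGraph V} {t B σ : ℕ} (hcod : Cod G t) {ω : V → ℕ}
    {R : Finset V} {s : V} (hs : s ∉ R) :
    ∑ x ∈ nb G s, del G B σ ω R s x ≤ t * (fl B ω R).card :=
  le_trans (Finset.sum_le_sum (fun x hx => del_nb_le (mem_nb.1 hx))) (sum_inc_le hcod hs)

/-- the total increase -/
theorem sum_del {G : SimpleGraph V} {B σ : ℕ} {ω : V → ℕ} {R : Finset V} {s : V} :
    ∑ x, del G B σ ω R s x = del G B σ ω R s s + ∑ x ∈ nb G s, del G B σ ω R s x := by
  have h1 : s ∉ nb G s := fun h => G.loopless.irrefl _ (mem_nb.1 h)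
  rw [← Finset.sum_insert h1]
  symm
  apply Finset.sum_subset (Finset.subset_univ _)
  intro x _ hx
  rw [Finset.mem_insert, not_or, mem_nb] at hx
  exact del_off hx.1 hx.2

end

end Pool.Agent.Lib.MP_4f8534_co.Codeg
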