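import Mathlib
import Pool.Agent.Lib.MP_4f8534_co.Codeg.Upd

set_option autoImplicit false

/-!
The condition on the total weight: it is at most `N`, or at most `N + B` and almost all of the
weight is on the neighbours of a full vertex.
-/

open Classical Finset

namespace Pool.Agent.Lib.MP_4f8534_co.Codeg

noncomputable section

variable {V : Type} [Fintype V]

/-- the condition on the total weight -/
def Inv (G : SimpleGraph V) (B N : ℕ) (ω : V → ℕ) : Prop :=
  ∑ x, ω x ≤ N ∨ (∑ x, ω x ≤ N + B ∧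
    ∃ h, ω h = B ∧ 2 * ∑ x, ω x ≤ ∑ x ∈ nb G h, ω x + N + 4 * B)

theorem Inv.le {G : SimpleGraph V} {B N : ℕ} {ω : V → ℕ} (h : Inv G B N ω) :
    ∑ x, ω x ≤ N + B := by
  rcases h with h | h
  · omega
  · exact h.1

/-- the weight of a common part of two neighbourhoods -/
theorem sum_common_le {G : SimpleGraph V} {t B : ℕ} (hcod : Cod G t) {ω : V → ℕ}
    (hle : ∀ x, ω x ≤ B) {h s : V} (hs : h ≠ s) :
    ∑ x ∈ (nb G h).filter (fun x => x ∈ cn G s), ω x ≤ (t + 1) * B := by
  have h1 : (nb G h).filter (fun x => x ∈ cn G s)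
      ⊆ insert s (univ.filter (fun x => G.Adj h x ∧ G.Adj s x)) := by
    intro x hx
    obtain ⟨h1, h2⟩ := Finset.mem_filter.1 hx
    rw [mem_nb] at h1
    rcases mem_cn.1 h2 with h3 | h3
    · subst h3
      exact Finset.mem_insert_self _ _
    · apply Finset.mem_insert_of_mem
      simp [h1, h3]
  have h2 : ((nb G h).filter (fun x => x ∈ cn G s)).card ≤ t + 1 := by
    refine le_trans (Finset.card_le_card h1) (le_trans (Finset.card_insert_le _ _) ?_)
    exact Nat.succ_le_succ (hcod h s hs)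
  calc ∑ x ∈ (nb G h).filter (fun x => x ∈ cn G s), ω x
      ≤ ∑ x ∈ (nb G h).filter (fun x => x ∈ cn G s), B := Finset.sum_le_sum (fun x _ => hle x)
    _ = ((nb G h).filter (fun x => x ∈ cn G s)).card * B := by
        rw [Finset.sum_const, smul_eq_mul]
    _ ≤ (t + 1) * B := Nat.mul_le_mul_right _ h2

/-- the weight of `R` -/
theorem sum_R {B : ℕ} {ω : V → ℕ} {R : Finset V} :
    ∑ x ∈ R, ω x = ∑ x ∈ R.filter (fun r => ω r ≠ B), ω x + B * (fl B ω R).card := by
  rw [← Finset.sum_filter_add_sum_filter_not R (fun r => ω r = B), add_comm]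
  congr 1
  rw [Finset.sum_congr rfl (g := fun _ => B) (fun x hx => (Finset.mem_filter.1 hx).2),
    Finset.sum_const, smul_eq_mul, mul_comm, fl]

theorem sum_univ_R {ω : V → ℕ} {R : Finset V} :
    ∑ x ∈ (univ : Finset V).filter (· ∈ R), ω x = ∑ x ∈ R, ω x := by
  congr 1
  ext x
  simp

/-- the balance of weights -/
theorem balance {G : SimpleGraph V} {B σ : ℕ} {ω : V → ℕ} {R : Finset V} {s : V}
    (hle : ∀ x, ω x ≤ B) :
    ∑ x, upd G B σ ω R s x + ∑ x ∈ R, ω x
      = ∑ x, ω x + (del G B σ ω R s s + ∑ x ∈ nb G s, del G B σ ω R s x) := by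
  rw [← sum_del, ← sum_upd hle, sum_univ_R]

/-- Case 1: the weights of a part of `T` which is disjoint from `D` are pushed to the centre -/
theorem inv_one {G : SimpleGraph V} {t B N σ : ℕ} (hcod : Cod G t) {ω : V → ℕ}
    {R : Finset V} {s : V} (hle : ∀ x, ω x ≤ B) (hB : 2 * t + 2 ≤ B) (hN : (t + 13) * B ≤ N)
    (hinv : Inv G B N ω) (hs : s ∉ R)
    (hg : ∀ r ∈ R, ∀ y, ω y ≠ 0 → G.Adj r y → y ∈ R ∨ y = s ∨ G.Adj s y)
    (hσ : σ ≤ ∑ r ∈ R.filter (fun r => ω r ≠ B), ω r + (fl B ω R).card) :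
    Inv G B N (upd G B σ ω R s) ∧
      ∑ x, upd G B σ ω R s x + (fl B ω R).card ≤ ∑ x, ω x := by
  have hbal := balance (G := G) (σ := σ) (R := R) (s := s) hle
  have hR := sum_R (B := B) (ω := ω) (R := R)
  have hD := del_s_le (G := G) (B := B) (σ := σ) (ω := ω) (R := R) (s := s)
  have hD' := del_s_le' (G := G) (B := B) (σ := σ) (R := R) (s := s) hle
  have hI := sum_del_nb_le (G := G) (B := B) (σ := σ) hcod (ω := ω) hs
  have hBpos : 0 < B := by omega
  set S := ∑ x, ω x
  set S' := ∑ x, upd G B σ ω R s x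
  set q := ∑ x ∈ R, ω x
  set nf := ∑ x ∈ R.filter (fun r => ω r ≠ B), ω x
  set a := (fl B ω R).card
  set Δ := del G B σ ω R s s
  set I := ∑ x ∈ nb G s, del G B σ ω R s x
  have hBa : (2 * t + 2) * a ≤ B * a := Nat.mul_le_mul_right _ hB
  have e1 : (2 * t + 2) * a = 2 * (t * a) + 2 * a := by ring
  have hS' : S' + a ≤ S := by omega
  refine ⟨?_, hS'⟩
  rcases hinv with hinv | ⟨hinv1, h, hhB, hinv2⟩
  · left
    show S' ≤ N
    omega
  · by_cases hhR : h ∈ R
    · left
      show S' ≤ N
      have hhs : h ≠ s := fun e => hs (e ▸ hhR)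
      have h1 := sum_common_le hcod hle hhs
      have h2 : ∑ x ∈ nb G h, ω x ≤ q + ∑ x ∈ (nb G h).filter (fun x => x ∈ cn G s), ω x := by
        rw [← Finset.sum_filter_add_sum_filter_not (nb G h) (fun x => x ∈ cn G s), add_comm]
        apply Nat.add_le_add_right
        have h3 : ∑ x ∈ (nb G h).filter (fun x => ¬ x ∈ cn G s), ω x
            = ∑ x ∈ ((nb G h).filter (fun x => ¬ x ∈ cn G s)).filter (fun x => ω x ≠ 0), ω x := by
          rw [Finset.sum_filter_ne_zero]
        rw [h3]
        apply Finset.sum_le_sum_of_subset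
        intro x hx
        obtain ⟨hx1, hx0⟩ := Finset.mem_filter.1 hx
        obtain ⟨hx2, hx3⟩ := Finset.mem_filter.1 hx1
        rcases hg h hhR x hx0 (mem_nb.1 hx2) with h4 | h4
        · exact h4
        · exact absurd (mem_cn.2 h4) hx3
      have e2 : (t + 13) * B = (t + 1) * B + 12 * B := by ring
      omega
    · right
      refine ⟨by omega, h, upd_full hle hhR hhB, ?_⟩
      show 2 * S' ≤ ∑ x ∈ nb G h, upd G B σ ω R s x + N + 4 * B
      by_cases hr : ∃ r ∈ R, G.Adj h r
      · obtain ⟨r, hrR, hhr⟩ := hr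
        have h1 := sum_upd (G := G) (σ := σ) (R := R) (s := s) hle (nb G h)
        have h2 : ∑ x ∈ (nb G h).filter (· ∈ R), ω x ≤ q := by
          apply Finset.sum_le_sum_of_subset
          intro x hx
          exact (Finset.mem_filter.1 hx).2
        rcases (hg r hrR h (by omega) hhr.symm).resolve_left hhR with h3 | h3
        · subst h3
          omega
        · have h4 : Δ ≤ ∑ x ∈ nb G h, del G B σ ω R s x :=
            Finset.single_le_sum (f := fun x => del G B σ ω R s x) (fun _ _ => Nat.zero_le _)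
              (mem_nb.2 h3.symm)
          omega
      · push Not at hr
        have h1 : ∑ x ∈ nb G h, ω x ≤ ∑ x ∈ nb G h, upd G B σ ω R s x := by
          apply Finset.sum_le_sum
          intro x hx
          exact le_upd hle (fun hxR => hr x hxR (mem_nb.1 hx))
        omega

/-- Case 3: a side is removed and the centre of the cutset becomes full -/
theorem inv_three {G : SimpleGraph V} {t B N : ℕ} (hcod : Cod G t) {ω : V → ℕ}
    {R : Finset V} {s : V} (hle : ∀ x, ω x ≤ B) (hB : 2 * t + 2 ≤ B) (hN : (t + 13) * B ≤ N)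
    (hinv : Inv G B N ω) (hs : s ∉ R) (hRs : ∀ r ∈ R, ¬ G.Adj s r)
    (hq : ∑ x ∈ univ.filter (fun x => x ∉ cn G s ∧ x ∉ R), ω x ≤ ∑ x ∈ R, ω x) :
    Inv G B N (upd G B B ω R s) := by
  have hbal := balance (G := G) (σ := B) (R := R) (s := s) hle
  have hR := sum_R (B := B) (ω := ω) (R := R)
  have hD' := del_s_le' (G := G) (B := B) (σ := B) (R := R) (s := s) hle
  have hI := sum_del_nb_le (G := G) (B := B) (σ := B) hcod (ω := ω) hs
  have hBpos : 0 < B := by omega
  have hsB : upd G B B ω R s s = B := by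
    unfold upd
    rw [if_neg hs, if_pos rfl]
    omega
  have hnb1 := sum_upd (G := G) (σ := B) (R := R) (s := s) hle (nb G s)
  have hnb2 : (nb G s).filter (· ∈ R) = ∅ := by
    apply Finset.filter_eq_empty_iff.2
    intro x hx hxR
    exact hRs x hxR (mem_nb.1 hx)
  rw [hnb2, Finset.sum_empty, add_zero] at hnb1
  -- the part off the closed neighbourhood of `s`
  have hoff : ∑ x ∈ univ.filter (fun x => ¬ x ∈ cn G s), ω x
      = ∑ x ∈ R, ω x + ∑ x ∈ univ.filter (fun x => x ∉ cn G s ∧ x ∉ R), ω x := by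
    rw [← Finset.sum_filter_add_sum_filter_not (univ.filter (fun x => ¬ x ∈ cn G s))
      (fun x => x ∈ R), Finset.filter_filter, Finset.filter_filter]
    congr 1
    congr 1
    ext x
    simp only [Finset.mem_filter, Finset.mem_univ, true_and]
    constructor
    · exact fun h => h.2
    · intro h
      refine ⟨?_, h⟩
      intro hx
      rcases mem_cn.1 hx with h1 | h1
      · exact hs (h1 ▸ h)
      · exact hRs x h h1
  have hoff' : ∑ x ∈ univ.filter (fun x => ¬ x ∈ cn G s), upd G B B ω R s x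
      = ∑ x ∈ univ.filter (fun x => x ∉ cn G s ∧ x ∉ R), ω x := by
    rw [← Finset.sum_filter_add_sum_filter_not (univ.filter (fun x => ¬ x ∈ cn G s))
      (fun x => x ∈ R), Finset.filter_filter, Finset.filter_filter]
    have h1 : ∑ x ∈ univ.filter (fun x => (¬ x ∈ cn G s) ∧ x ∈ R), upd G B B ω R s x = 0 := by
      apply Finset.sum_eq_zero
      intro x hx
      unfold upd
      rw [if_pos (Finset.mem_filter.1 hx).2.2]
    rw [h1, zero_add]
    apply Finset.sum_congr rfl
    intro x hx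
    obtain ⟨-, hx1, hx2⟩ := Finset.mem_filter.1 hx
    rw [mem_cn, not_or] at hx1
    exact upd_off hx2 hx1.1 hx1.2
  have hcn : ∀ f : V → ℕ, ∑ x, f x = f s + ∑ x ∈ nb G s, f x
      + ∑ x ∈ univ.filter (fun x => ¬ x ∈ cn G s), f x := by
    intro f
    have h1 : s ∉ nb G s := fun h => G.loopless.irrefl _ (mem_nb.1 h)
    rw [← Finset.sum_insert h1, ← Finset.sum_filter_add_sum_filter_not univ
      (fun x => x ∈ cn G s)]
    congr 1
    congr 1
    ext x
    simp [mem_cn, mem_nb]
  have hcn1 := hcn (upd G B B ω R s)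
  rw [hsB, hoff'] at hcn1
  -- the general bound for another hub
  have hgen : ∀ h, h ≠ s → ω h = B → ∑ x, ω x ≤ N + B →
      2 * ∑ x, ω x ≤ ∑ x ∈ nb G h, ω x + N + 4 * B → ∑ x, upd G B B ω R s x ≤ N := by
    intro h hhs hhB hi1 hi2
    have h1 := sum_common_le hcod hle hhs
    have h2 : ∑ x ∈ nb G h, ω x ≤ ∑ x ∈ (nb G h).filter (fun x => x ∈ cn G s), ω x
        + ∑ x ∈ univ.filter (fun x => ¬ x ∈ cn G s), ω x := by
      rw [← Finset.sum_filter_add_sum_filter_not (nb G h) (fun x => x ∈ cn G s)]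
      apply Nat.add_le_add_left
      apply Finset.sum_le_sum_of_subset
      intro x hx
      simpa using (Finset.mem_filter.1 hx).2
    have e2 : (t + 13) * B = (t + 1) * B + 12 * B := by ring
    have hBa : (2 * t + 2) * (fl B ω R).card ≤ B * (fl B ω R).card :=
      Nat.mul_le_mul_right _ hB
    have e1 : (2 * t + 2) * (fl B ω R).card
        = 2 * (t * (fl B ω R).card) + 2 * (fl B ω R).card := by ring
    omega
  have hBa : (2 * t + 2) * (fl B ω R).card ≤ B * (fl B ω R).card :=
    Nat.mul_le_mul_right _ hB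
  have e1 : (2 * t + 2) * (fl B ω R).card
      = 2 * (t * (fl B ω R).card) + 2 * (fl B ω R).card := by ring
  by_cases hfin : ∑ x, upd G B B ω R s x ≤ N
  · exact Or.inl hfin
  · right
    rcases hinv with hinv | ⟨hinv1, h, hhB, hinv2⟩
    · refine ⟨by omega, s, hsB, by omega⟩
    · by_cases hhs : h = s
      · subst hhs
        refine ⟨by omega, h, hsB, by omega⟩
      · exact absurd (hgen h hhs hhB hinv1 hinv2) hfin

end

end Pool.Agent.Lib.MP_4f8534_co.Codeg
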