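import Mathlib
import Pool.Agent.Lib.MP_4f8534_co.Codeg.Upd

set_option autoImplicit false

/-!
The basic step: the weights of `R` are pushed to `s` and its neighbours, the condition on the
number of outside neighbours is kept.
-/

open Classical Finset

namespace Pool.Agent.Lib.MP_4f8534_co.Codeg

noncomputable section

variable {V : Type} [Fintype V]

/-- the neighbours of `d` in `U` which are neither in `D` nor adjacent to a full vertex -/
def Out (G : SimpleGraph V) (B : ℕ) (U D : Finset V) (ω : V → ℕ) (d : V) : Finset V :=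
  U.filter (fun v => G.Adj d v ∧ v ∉ D ∧ ∀ c, ω c = B → ¬ G.Adj c v)

/-- the conditions on `D` and the weights -/
structure Base (G : SimpleGraph V) (t B : ℕ) (U D : Finset V) (ω : V → ℕ) : Prop where
  le : ∀ x, ω x ≤ B
  sep : ∀ c, ω c = B → ∀ d ∈ D, d ≠ c ∧ ¬ G.Adj c d
  out : ∀ d ∈ D, (Out G B U D ω d).card ≤ t * ∑ x ∈ cn G d, ω x

/-- every vertex which sees a full vertex and `D` is dominated by a vertex of `T` -/
def Dom (G : SimpleGraph V) (B : ℕ) (D T : Finset V) (ω : V → ℕ) : Prop :=
  ∀ v, v ∉ D → (∃ c, ω c = B ∧ G.Adj c v) → (∃ d ∈ D, G.Adj d v) →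
    ∃ x ∈ T, ∀ y, (y ∈ D ∨ ω y = B) → G.Adj v y → G.Adj x y

/-- the new set -/
def nD (G : SimpleGraph V) (B : ℕ) (D : Finset V) (ω : V → ℕ) : Finset V :=
  D.filter (fun d => ∀ c, ω c = B → d ≠ c ∧ ¬ G.Adj c d)

theorem card_cod_le {G : SimpleGraph V} {t : ℕ} (hcod : Cod G t) {d : V} {A : Finset V}
    (hA : d ∉ A) :
    (A.biUnion (fun c => univ.filter (fun v => G.Adj d v ∧ G.Adj c v))).card ≤ t * A.card := by
  refine le_trans Finset.card_biUnion_le ?_
  calc ∑ c ∈ A, (univ.filter (fun v => G.Adj d v ∧ G.Adj c v)).card ≤ ∑ c ∈ A, t := by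
        apply Finset.sum_le_sum
        intro c hc
        exact hcod d c (fun e => hA (e ▸ hc))
    _ = t * A.card := by rw [Finset.sum_const, smul_eq_mul, mul_comm]

theorem step_base {G : SimpleGraph V} {t B : ℕ} (hcod : Cod G t) {U D T R D1 : Finset V}
    {ω : V → ℕ} {s : V} {σ : ℕ} (hb : Base G t B U D ω) (hdom : Dom G B D T ω)
    (hD1 : D1 ⊆ D) (hdis : ∀ d ∈ D1, d ∉ R) (hs : s ∉ R)
    (hc : ∀ d ∈ D1, ∀ v ∈ D, G.Adj d v → v ∈ D1 ∨ (upd G B σ ω R s s = B ∧ G.Adj s v))
    (he : ∀ c ∈ R, ω c = B → ∀ x ∈ T, G.Adj c x → x ∈ R ∨ x = s ∨ G.Adj s x)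
    (hf : ((∀ d ∈ D1, ∀ r ∈ R, G.Adj d r → d = s ∨ G.Adj d s) ∧
        ∑ r ∈ R.filter (fun r => ω r ≠ B), ω r + (fl B ω R).card ≤ σ) ∨
      ((∀ d ∈ D1, ∀ r ∈ R, ¬ G.Adj d r) ∧ ∀ c ∈ R, ω c = B → ¬ G.Adj c s)) :
    Base G t B U (nD G B D1 (upd G B σ ω R s)) (upd G B σ ω R s) := by
  refine ⟨upd_le hb.le, ?_, ?_⟩
  · intro c hc d hd
    exact (Finset.mem_filter.1 hd).2 c hc
  · intro d hd
    obtain ⟨hd1, hdf⟩ := Finset.mem_filter.1 hd
    have hdD := hD1 hd1
    have hdR := hdis d hd1
    -- the pairs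
    set F : Finset V := (cn G d).filter (fun x => x ∉ R ∧ G.Adj s x) with hF
    set A1 : Finset V := if (d = s ∨ G.Adj d s) ∧
        (∑ r ∈ R.filter (fun r => ω r ≠ B), ω r + (fl B ω R).card ≤ σ) then
      (fl B ω R).biUnion (fun c => univ.filter (fun v => G.Adj d v ∧ G.Adj c v)) else ∅ with hA1
    set A2 : Finset V := F.biUnion (fun x => ((fl B ω R).filter (fun c => G.Adj c x)).biUnion
      (fun c => univ.filter (fun v => G.Adj d v ∧ G.Adj c v))) with hA2
    have hsub : Out G B U (nD G B D1 (upd G B σ ω R s)) (upd G B σ ω R s) d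
        ⊆ (Out G B U D ω d ∪ A1) ∪ A2 := by
      intro v hv
      obtain ⟨hvU, hdv, hvD', hvc⟩ := Finset.mem_filter.1 hv
      have hvD : v ∉ D := by
        intro hvD
        rcases hc d hd1 v hvD hdv with h | ⟨h1, h2⟩
        · have h3 : ¬ ∀ c, upd G B σ ω R s c = B → v ≠ c ∧ ¬ G.Adj c v := fun h4 =>
            hvD' (Finset.mem_filter.2 ⟨h, h4⟩)
          push Not at h3
          obtain ⟨c, hcB, h4⟩ := h3
          by_cases hvc' : v = c
          · subst hvc'
            exact (hdf v hcB).2 hdv.symm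
          · exact hvc c hcB (h4 hvc')
        · exact hvc s h1 h2
      by_cases hold : ∀ c, ω c = B → ¬ G.Adj c v
      · exact Finset.mem_union_left _ (Finset.mem_union_left _
          (Finset.mem_filter.2 ⟨hvU, hdv, hvD, hold⟩))
      · push Not at hold
        obtain ⟨c, hcB, hcv⟩ := hold
        have hcR : c ∈ R := by
          by_contra hcR
          exact hvc c (upd_full hb.le hcR hcB) hcv
        have hcF : c ∈ fl B ω R := Finset.mem_filter.2 ⟨hcR, hcB⟩
        have hcv' : v ∈ univ.filter (fun v => G.Adj d v ∧ G.Adj c v) := by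
          simp [hdv, hcv]
        obtain ⟨x, hxT, hx⟩ := hdom v hvD ⟨c, hcB, hcv⟩ ⟨d, hdD, hdv⟩
        have hxc : G.Adj x c := hx c (Or.inr hcB) hcv.symm
        have hxd : G.Adj x d := hx d (Or.inl hdD) hdv.symm
        have hx3 := he c hcR hcB x hxT hxc.symm
        by_cases hxR : x ∈ R
        · rcases hf with ⟨hf1, hf2⟩ | ⟨hf1, -⟩
          · apply Finset.mem_union_left
            apply Finset.mem_union_right
            rw [hA1, if_pos ⟨hf1 d hd1 x hxR hxd.symm, hf2⟩]
            exact Finset.mem_biUnion.2 ⟨c, hcF, hcv'⟩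
          · exact absurd hxd.symm (hf1 d hd1 x hxR)
        · rcases hx3.resolve_left hxR with rfl | hsx
          · rcases hf with ⟨-, hf2⟩ | ⟨-, hf2⟩
            · apply Finset.mem_union_left
              apply Finset.mem_union_right
              rw [hA1, if_pos ⟨Or.inr hxd.symm, hf2⟩]
              exact Finset.mem_biUnion.2 ⟨c, hcF, hcv'⟩
            · exact absurd hxc.symm (hf2 c hcR hcB)
          · apply Finset.mem_union_right
            rw [hA2]
            refine Finset.mem_biUnion.2 ⟨x, ?_, Finset.mem_biUnion.2 ⟨c, ?_, hcv'⟩⟩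
            · exact Finset.mem_filter.2 ⟨mem_cn.2 (Or.inr hxd.symm), hxR, hsx⟩
            · exact Finset.mem_filter.2 ⟨hcF, hxc.symm⟩
    have hdfl : d ∉ fl B ω R := fun h => hdR (Finset.mem_filter.1 h).1
    have hcardA2 : A2.card ≤ t * ∑ x ∈ F, inc G B ω R x := by
      rw [hA2, Finset.mul_sum]
      refine le_trans Finset.card_biUnion_le (Finset.sum_le_sum ?_)
      intro x _
      exact card_cod_le hcod (fun h => hdfl (Finset.mem_filter.1 h).1)
    -- the new sum
    have hnf : ∀ x ∈ cn G d, upd G B σ ω R s x ≠ B := by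
      intro x hx hxB
      have h1 := hdf x hxB
      rcases mem_cn.1 hx with h | h
      · exact h1.1 h.symm
      · exact h1.2 h.symm
    have hval : ∀ x ∈ cn G d, upd G B σ ω R s x = (if x ∈ R then 0 else ω x) +
        (if x = s then σ else 0) + (if x ∉ R ∧ G.Adj s x then inc G B ω R x else 0) := by
      intro x hx
      have h1 := hnf x hx
      have hle := hb.le x
      unfold upd at h1 ⊢
      by_cases hxR : x ∈ R
      · have hxs : x ≠ s := fun e => hs (e ▸ hxR)
        simp [hxR, hxs]
      · by_cases hxs : x = s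
        · subst hxs
          simp only [hs, if_false, if_true, not_false_eq_true, true_and, SimpleGraph.irrefl] at h1 ⊢
          omega
        · by_cases hsx : G.Adj s x
          · simp only [hxR, hxs, hsx, if_false, if_true, not_false_eq_true, true_and] at h1 ⊢
            omega
          · simp [hxR, hxs, hsx]
    have hsum : ∑ x ∈ cn G d, upd G B σ ω R s x = (∑ x ∈ (cn G d).filter (· ∉ R), ω x) +
        (if s ∈ cn G d then σ else 0) + ∑ x ∈ F, inc G B ω R x := by
      rw [Finset.sum_congr rfl hval, Finset.sum_add_distrib, Finset.sum_add_distrib]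
      congr 1
      · congr 1
        · rw [Finset.sum_filter]
          exact Finset.sum_congr rfl (fun x _ => by by_cases h : x ∈ R <;> simp [h])
        · rw [Finset.sum_ite_eq']
      · rw [hF, Finset.sum_filter]
    have hold := hb.out d hdD
    have hsplit : ∑ x ∈ cn G d, ω x = (∑ x ∈ (cn G d).filter (· ∉ R), ω x) +
        ∑ x ∈ (cn G d).filter (· ∈ R), ω x := by
      rw [add_comm]
      exact (Finset.sum_filter_add_sum_filter_not _ _ _).symm
    have hcard := Finset.card_le_card hsub
    have hc1 := Finset.card_union_le (Out G B U D ω d ∪ A1) A2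
    have hc2 := Finset.card_union_le (Out G B U D ω d) A1
    rw [hsum, mul_add, mul_add]
    rw [hsplit, mul_add] at hold
    -- the last estimate
    have hlast : t * ∑ x ∈ (cn G d).filter (· ∈ R), ω x + A1.card
        ≤ t * (if s ∈ cn G d then σ else 0) := by
      by_cases hnon : ∃ r ∈ R, G.Adj d r
      · rcases hf with ⟨hf1, hf2⟩ | ⟨hf1, -⟩
        · obtain ⟨r, hrR, hdr⟩ := hnon
          have hds := hf1 d hd1 r hrR hdr
          have hsm : s ∈ cn G d := mem_cn.2 (hds.imp Eq.symm id)
          rw [if_pos hsm]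
          have h1 : A1.card ≤ t * (fl B ω R).card := by
            rw [hA1, if_pos ⟨hds, hf2⟩]
            exact card_cod_le hcod hdfl
          have h2 : ∑ x ∈ (cn G d).filter (· ∈ R), ω x
              ≤ ∑ r ∈ R.filter (fun r => ω r ≠ B), ω r := by
            apply Finset.sum_le_sum_of_subset
            intro x hx
            obtain ⟨hx1, hxR⟩ := Finset.mem_filter.1 hx
            refine Finset.mem_filter.2 ⟨hxR, ?_⟩
            intro hxB
            have h3 := hb.sep x hxB d hdD
            rcases mem_cn.1 hx1 with h | h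
            · exact h3.1 h.symm
            · exact h3.2 h.symm
          calc t * ∑ x ∈ (cn G d).filter (· ∈ R), ω x + A1.card
              ≤ t * ∑ r ∈ R.filter (fun r => ω r ≠ B), ω r + t * (fl B ω R).card :=
                Nat.add_le_add (Nat.mul_le_mul_left _ h2) h1
            _ = t * (∑ r ∈ R.filter (fun r => ω r ≠ B), ω r + (fl B ω R).card) := by ring
            _ ≤ t * σ := Nat.mul_le_mul_left _ hf2
        · obtain ⟨r, hrR, hdr⟩ := hnon
          exact absurd hdr (hf1 d hd1 r hrR)
      · push Not at hnon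
        have h1 : (cn G d).filter (· ∈ R) = ∅ := by
          apply Finset.filter_eq_empty_iff.2
          intro x hx hxR
          rcases mem_cn.1 hx with h | h
          · subst h
            exact hdR hxR
          · exact hnon x hxR h
        rw [h1, Finset.sum_empty, mul_zero, zero_add]
        by_cases h2 : (d = s ∨ G.Adj d s) ∧
            (∑ r ∈ R.filter (fun r => ω r ≠ B), ω r + (fl B ω R).card ≤ σ)
        · have hsm : s ∈ cn G d := mem_cn.2 (h2.1.imp Eq.symm id)
          rw [hA1, if_pos h2, if_pos hsm]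
          refine le_trans (card_cod_le hcod hdfl) (Nat.mul_le_mul_left _ ?_)
          exact le_trans (Nat.le_add_left _ _) h2.2
        · rw [hA1, if_neg h2, Finset.card_empty]
          exact Nat.zero_le _
    omega

end

end Pool.Agent.Lib.MP_4f8534_co.Codeg
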