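import Mathlib
import Pool.Agent.Lib.MP_4f8534_co.Codeg.Step
import Pool.Agent.Lib.MP_4f8534_co.Codeg.Inv

set_option autoImplicit false

/-!
Good parts, configurations, separations.
-/

open Classical Finset

namespace Pool.Agent.Lib.MP_4f8534_co.Codeg

noncomputable section

variable {V : Type} [Fintype V]

/-- a nonempty `k`-colourable part of `U`, all of whose vertices have at most `C` neighbours in
`U` outside of the part -/
def Good (G : SimpleGraph V) (k C : ℕ) (U D : Finset V) : Prop :=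
  D ⊆ U ∧ D.Nonempty ∧ (G.induce (D : Set V)).Colorable k ∧
    ∀ d ∈ D, (U.filter (fun v => G.Adj d v ∧ v ∉ D)).card ≤ C

/-- the bound on the number of outside neighbours -/
def bd (t B : ℕ) : ℕ := t * ((t + 14) * B) + t * (t + 14) + ((t + 1) * (t + 14) + t)

theorem full_card {B m : ℕ} (hB : 0 < B) {ω : V → ℕ} (h : ∑ x, ω x ≤ m * B) :
    (univ.filter (fun c => ω c = B)).card ≤ m := by
  have h1 : (univ.filter (fun c => ω c = B)).card * B ≤ ∑ x, ω x := by
    calc (univ.filter (fun c => ω c = B)).card * B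
        = ∑ x ∈ univ.filter (fun c => ω c = B), ω x := by
          rw [Finset.sum_congr rfl (g := fun _ => B) (fun x hx => (Finset.mem_filter.1 hx).2),
            Finset.sum_const, smul_eq_mul]
      _ ≤ ∑ x, ω x := Finset.sum_le_sum_of_subset (Finset.filter_subset _ _)
  exact Nat.le_of_mul_le_mul_right (h1.trans h) hB

theorem nbr_bound {G : SimpleGraph V} {t B : ℕ} (hcod : Cod G t) (hB : 0 < B)
    {U D : Finset V} {ω : V → ℕ} (hb : Base G t B U D ω) (hw : ∑ x, ω x ≤ (t + 14) * B)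
    {d : V} (hd : d ∈ D) :
    (U.filter (fun v => G.Adj d v ∧ v ∉ D)).card ≤ t * ((t + 14) * B) + t * (t + 14) := by
  have h1 : U.filter (fun v => G.Adj d v ∧ v ∉ D) ⊆ Out G B U D ω d ∪
      (univ.filter (fun c => ω c = B)).biUnion
        (fun c => univ.filter (fun v => G.Adj d v ∧ G.Adj c v)) := by
    intro v hv
    obtain ⟨hvU, hdv, hvD⟩ := Finset.mem_filter.1 hv
    by_cases h : ∀ c, ω c = B → ¬ G.Adj c v
    · exact Finset.mem_union_left _ (Finset.mem_filter.2 ⟨hvU, hdv, hvD, h⟩)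
    · push Not at h
      obtain ⟨c, hc, hcv⟩ := h
      apply Finset.mem_union_right
      refine Finset.mem_biUnion.2 ⟨c, by simp [hc], by simp [hdv, hcv]⟩
  have h2 : d ∉ univ.filter (fun c => ω c = B) := by
    intro h
    exact (hb.sep d (Finset.mem_filter.1 h).2 d hd).1 rfl
  have h3 := hb.out d hd
  have h4 : ∑ x ∈ cn G d, ω x ≤ ∑ x, ω x := Finset.sum_le_sum_of_subset (Finset.subset_univ _)
  have h5 : t * ∑ x ∈ cn G d, ω x ≤ t * ((t + 14) * B) := Nat.mul_le_mul_left _ (h4.trans hw)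
  have h6 := card_cod_le hcod h2
  have h7 : t * (univ.filter (fun c => ω c = B)).card ≤ t * (t + 14) :=
    Nat.mul_le_mul_left _ (full_card hB hw)
  have h8 := Finset.card_le_card h1
  have h9 := Finset.card_union_le (Out G B U D ω d) ((univ.filter (fun c => ω c = B)).biUnion
        (fun c => univ.filter (fun v => G.Adj d v ∧ G.Adj c v)))
  omega

/-- a single vertex with few neighbours in `D` is a good part -/
theorem good_single {G : SimpleGraph V} {t B k m : ℕ} (hk : 1 ≤ k) (hcod : Cod G t) (hB : 0 < B)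
    {U D : Finset V} {ω : V → ℕ} (hDU : D ⊆ U) (hb : Base G t B U D ω)
    (hw : ∑ x, ω x ≤ (t + 14) * B) {d : V} (hd : d ∈ D)
    (hm : (D.filter (fun v => G.Adj d v)).card ≤ m) (hm' : m ≤ (t + 1) * (t + 14) + t) :
    Good G k (bd t B) U {d} := by
  refine ⟨by simpa using hDU hd, Finset.singleton_nonempty _, ?_, ?_⟩
  · refine SimpleGraph.Colorable.mono hk ⟨SimpleGraph.Coloring.mk (fun _ => (0 : Fin 1)) ?_⟩
    rintro ⟨x, hx⟩ ⟨y, hy⟩ hxy
    exfalso
    have hxy' : G.Adj x y := hxy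
    have hx' : x = d := by simpa using hx
    have hy' : y = d := by simpa using hy
    subst hx'
    subst hy'
    exact G.loopless.irrefl _ hxy'
  · intro d' hd'
    rw [Finset.mem_singleton] at hd'
    subst hd'
    have h1 := nbr_bound hcod hB hb hw hd
    have h2 : U.filter (fun v => G.Adj d' v ∧ v ∉ ({d'} : Finset V)) ⊆
        U.filter (fun v => G.Adj d' v ∧ v ∉ D) ∪ D.filter (fun v => G.Adj d' v) := by
      intro v hv
      obtain ⟨hvU, hdv, -⟩ := Finset.mem_filter.1 hv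
      by_cases h : v ∈ D
      · exact Finset.mem_union_right _ (Finset.mem_filter.2 ⟨h, hdv⟩)
      · exact Finset.mem_union_left _ (Finset.mem_filter.2 ⟨hvU, hdv, h⟩)
    have h3 := Finset.card_le_card h2
    have h4 := Finset.card_union_le (U.filter (fun v => G.Adj d' v ∧ v ∉ D))
      (D.filter (fun v => G.Adj d' v))
    unfold bd
    omega

/-- a set covered by few stars has a vertex of small degree -/
theorem cover {G : SimpleGraph V} {t m : ℕ} (hcod : Cod G t) {D A : Finset V}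
    (hne : D.Nonempty) (hA : A.card ≤ m) (hcov : ∀ d ∈ D, ∃ c ∈ A, d = c ∨ G.Adj c d) :
    ∃ d ∈ D, (D.filter (fun v => G.Adj d v)).card ≤ (t + 1) * m := by
  by_cases hDA : D ⊆ A
  · obtain ⟨d, hd⟩ := hne
    refine ⟨d, hd, ?_⟩
    calc (D.filter (fun v => G.Adj d v)).card ≤ D.card := Finset.card_filter_le _ _
      _ ≤ A.card := Finset.card_le_card hDA
      _ ≤ m := hA
      _ = 1 * m := (one_mul m).symm
      _ ≤ (t + 1) * m := Nat.mul_le_mul_right _ (by omega)
  · rw [Finset.not_subset] at hDA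
    obtain ⟨d, hd, hdA⟩ := hDA
    refine ⟨d, hd, ?_⟩
    have h1 : D.filter (fun v => G.Adj d v) ⊆ A.biUnion (fun c => insert c
        (univ.filter (fun v => G.Adj d v ∧ G.Adj c v))) := by
      intro v hv
      obtain ⟨hvD, hdv⟩ := Finset.mem_filter.1 hv
      obtain ⟨c, hc, h⟩ := hcov v hvD
      refine Finset.mem_biUnion.2 ⟨c, hc, ?_⟩
      rcases h with h | h
      · rw [h]
        exact Finset.mem_insert_self _ _
      · apply Finset.mem_insert_of_mem
        simp [hdv, h]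
    refine le_trans (Finset.card_le_card h1) (le_trans Finset.card_biUnion_le ?_)
    calc ∑ c ∈ A, (insert c (univ.filter (fun v => G.Adj d v ∧ G.Adj c v))).card
        ≤ ∑ c ∈ A, (t + 1) := by
          apply Finset.sum_le_sum
          intro c hc
          refine le_trans (Finset.card_insert_le _ _) (Nat.succ_le_succ ?_)
          exact hcod d c (fun e => hdA (e ▸ hc))
      _ = (t + 1) * A.card := by rw [Finset.sum_const, smul_eq_mul, mul_comm]
      _ ≤ (t + 1) * m := Nat.mul_le_mul_left _ hA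

/-- a configuration -/
structure Cfg (G : SimpleGraph V) (t B N : ℕ) (U D T : Finset V) (ω : V → ℕ) : Prop where
  sub : D ⊆ U
  ne : D.Nonempty
  base : Base G t B U D ω
  dom : Dom G B D T ω
  DT : D ⊆ T
  wT : ∀ x, ω x ≠ 0 → x ∈ T
  inv : Inv G B N ω

theorem dom_univ {G : SimpleGraph V} {B : ℕ} {D : Finset V} {ω : V → ℕ} :
    Dom G B D univ ω := fun v _ _ _ => ⟨v, Finset.mem_univ _, fun _ _ h => h⟩

theorem Cfg.univ {G : SimpleGraph V} {t B N : ℕ} {U D : Finset V} {ω : V → ℕ}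
    (h1 : D ⊆ U) (h2 : D.Nonempty) (h3 : Base G t B U D ω) (h4 : Inv G B N ω) :
    Cfg G t B N U D univ ω :=
  ⟨h1, h2, h3, dom_univ, Finset.subset_univ _, fun _ _ => Finset.mem_univ _, h4⟩

/-- a separation of `T` by a set of neighbours of `s` -/
structure Sep (G : SimpleGraph V) (T : Finset V) (s : V) (P Q : Finset V) : Prop where
  sT : s ∈ T
  PT : P ⊆ T
  QT : Q ⊆ T
  sP : s ∉ P
  sQ : s ∉ Q
  pne : P.Nonempty
  qne : Q.Nonempty
  cov : ∀ z ∈ T, z ∈ P ∨ z ∈ Q ∨ z = s ∨ G.Adj s z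
  dis : ∀ z ∈ P, z ∉ Q
  nadj : ∀ p ∈ P, ∀ q ∈ Q, ¬ G.Adj p q

theorem Sep.symm {G : SimpleGraph V} {T P Q : Finset V} {s : V} (h : Sep G T s P Q) :
    Sep G T s Q P where
  sT := h.sT
  PT := h.QT
  QT := h.PT
  sP := h.sQ
  sQ := h.sP
  pne := h.qne
  qne := h.pne
  cov := fun z hz => by
    rcases h.cov z hz with h1 | h1 | h1
    · exact Or.inr (Or.inl h1)
    · exact Or.inl h1
    · exact Or.inr (Or.inr h1)
  dis := fun z hz hz' => h.dis z hz' hz
  nadj := fun p hp q hq hpq => h.nadj q hq p hp hpq.symm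

/-- the neighbours of one side -/
theorem Sep.nbr {G : SimpleGraph V} {T P Q : Finset V} {s : V} (h : Sep G T s P Q) {q z : V}
    (hq : q ∈ Q) (hz : z ∈ T) (hqz : G.Adj q z) : z ∈ Q ∨ z = s ∨ G.Adj s z := by
  rcases h.cov z hz with h1 | h1
  · exact absurd hqz.symm (h.nadj z h1 q hq)
  · exact h1

theorem exists_sep {G : SimpleGraph V} {k : ℕ}
    (hC : ∀ T : Set V, (G.induce T).Colorable k ∨
      ∃ S : Set V, S ⊆ T ∧ (∃ v ∈ S, ∀ w ∈ S, w ≠ v → G.Adj v w) ∧
        ∃ a b : ↥(T \ S), ¬ (G.induce (T \ S)).Reachable a b)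
    {D T : Finset V} (hDT : D ⊆ T) (hD : ¬ (G.induce (D : Set V)).Colorable k) :
    ∃ s P Q, Sep G T s P Q := by
  rcases hC (T : Set V) with h | ⟨S, hS, ⟨s, hsS, hs⟩, a, b, hab⟩
  · exfalso
    apply hD
    obtain ⟨c⟩ := h
    exact ⟨SimpleGraph.Coloring.mk (fun z => c ⟨z.1, hDT z.2⟩) (fun {z w} hzw =>
      c.valid (show G.Adj z.1 w.1 from hzw))⟩
  · refine ⟨s, univ.filter (fun z => ∃ h : z ∈ (T : Set V) \ S,
        (G.induce ((T : Set V) \ S)).Reachable a ⟨z, h⟩),
      univ.filter (fun z => ∃ h : z ∈ (T : Set V) \ S,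
        ¬ (G.induce ((T : Set V) \ S)).Reachable a ⟨z, h⟩), hS hsS, ?_, ?_, ?_, ?_, ?_, ?_, ?_,
        ?_, ?_⟩
    · intro z hz
      obtain ⟨-, h, -⟩ := Finset.mem_filter.1 hz
      exact h.1
    · intro z hz
      obtain ⟨-, h, -⟩ := Finset.mem_filter.1 hz
      exact h.1
    · intro hz
      obtain ⟨-, h, -⟩ := Finset.mem_filter.1 hz
      exact h.2 hsS
    · intro hz
      obtain ⟨-, h, -⟩ := Finset.mem_filter.1 hz
      exact h.2 hsS
    · exact ⟨a.1, Finset.mem_filter.2 ⟨Finset.mem_univ _, a.2, SimpleGraph.Reachable.refl _⟩⟩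
    · exact ⟨b.1, Finset.mem_filter.2 ⟨Finset.mem_univ _, b.2, hab⟩⟩
    · intro z hz
      by_cases hzS : z ∈ S
      · by_cases hzs : z = s
        · exact Or.inr (Or.inr (Or.inl hzs))
        · exact Or.inr (Or.inr (Or.inr (hs z hzS hzs)))
      · by_cases hr : (G.induce ((T : Set V) \ S)).Reachable a ⟨z, hz, hzS⟩
        · exact Or.inl (Finset.mem_filter.2 ⟨Finset.mem_univ _, ⟨hz, hzS⟩, hr⟩)
        · exact Or.inr (Or.inl (Finset.mem_filter.2 ⟨Finset.mem_univ _, ⟨hz, hzS⟩, hr⟩))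
    · intro z hz hz'
      obtain ⟨-, h, h1⟩ := Finset.mem_filter.1 hz
      obtain ⟨-, h', h2⟩ := Finset.mem_filter.1 hz'
      exact h2 h1
    · intro p hp q hq hpq
      obtain ⟨-, h, h1⟩ := Finset.mem_filter.1 hp
      obtain ⟨-, h', h2⟩ := Finset.mem_filter.1 hq
      have h5 : (G.induce ((T : Set V) \ S)).Adj ⟨p, h⟩ ⟨q, h'⟩ := hpq
      exact h2 (h1.trans h5.reachable)

end

end Pool.Agent.Lib.MP_4f8534_co.Codeg
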