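import Mathlib
import Pool.Agent.Lib.MP_4f8534_co.Codeg.Part

set_option autoImplicit false

/-!
The cases of the induction.
-/

open Classical Finset

namespace Pool.Agent.Lib.MP_4f8534_co.Codeg

noncomputable section

variable {V : Type} [Fintype V]

/-- the order of the induction -/
def Smaller (D' T' : Finset V) (ω' : V → ℕ) (D T : Finset V) (ω : V → ℕ) : Prop :=
  D'.card < D.card ∨ (D'.card ≤ D.card ∧ (∑ x, ω' x < ∑ x, ω x ∨
    (∑ x, ω' x ≤ ∑ x, ω x ∧ T'.card < T.card)))

/-- the induction hypothesis -/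
def IH (G : SimpleGraph V) (k t B N : ℕ) (U D T : Finset V) (ω : V → ℕ) : Prop :=
  ∀ D' T' ω', Cfg G t B N U D' T' ω' → Smaller D' T' ω' D T ω →
    ∃ D0, Good G k (bd t B) U D0

theorem nD_sub {G : SimpleGraph V} {B : ℕ} {D : Finset V} {ω : V → ℕ} : nD G B D ω ⊆ D :=
  Finset.filter_subset _ _

theorem nD_card {G : SimpleGraph V} {B : ℕ} {D : Finset V} {ω : V → ℕ} :
    (nD G B D ω).card ≤ D.card := Finset.card_le_card nD_sub

/-- if nothing of `D1` is left then there is a good part -/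
theorem good_of_empty {G : SimpleGraph V} {k t B : ℕ} (hk : 1 ≤ k) (hcod : Cod G t) (hB : 0 < B)
    {U D D1 : Finset V} {ω ω' : V → ℕ} (hDU : D ⊆ U) (hb : Base G t B U D ω)
    (hw : ∑ x, ω x ≤ (t + 14) * B) (hw' : ∑ x, ω' x ≤ (t + 14) * B) (hD1 : D1 ⊆ D)
    (hne : D1.Nonempty) (hout : ∀ d ∈ D1, (D.filter (fun v => G.Adj d v ∧ v ∉ D1)).card ≤ t)
    (he : nD G B D1 ω' = ∅) : ∃ D0, Good G k (bd t B) U D0 := by
  obtain ⟨d, hd, hcard⟩ := cover hcod (A := univ.filter (fun c => ω' c = B)) hne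
    (full_card hB hw') (by
      intro d hd
      by_contra hcon
      push Not at hcon
      have h1 : d ∈ nD G B D1 ω' := Finset.mem_filter.2 ⟨hd, fun c hc =>
        hcon c (Finset.mem_filter.2 ⟨Finset.mem_univ _, hc⟩)⟩
      rw [he] at h1
      exact absurd h1 (Finset.notMem_empty _))
  refine ⟨{d}, good_single hk hcod hB hDU hb hw (hD1 hd) (m := (t + 1) * (t + 14) + t) ?_ le_rfl⟩
  have h1 : D.filter (fun v => G.Adj d v) ⊆ D1.filter (fun v => G.Adj d v) ∪
      D.filter (fun v => G.Adj d v ∧ v ∉ D1) := by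
    intro v hv
    obtain ⟨hvD, hdv⟩ := Finset.mem_filter.1 hv
    by_cases h : v ∈ D1
    · exact Finset.mem_union_left _ (Finset.mem_filter.2 ⟨h, hdv⟩)
    · exact Finset.mem_union_right _ (Finset.mem_filter.2 ⟨hvD, hdv, h⟩)
  have h2 := Finset.card_le_card h1
  have h3 := Finset.card_union_le (D1.filter (fun v => G.Adj d v))
    (D.filter (fun v => G.Adj d v ∧ v ∉ D1))
  have h4 := hout d hd
  omega

/-- Case 1: one side of the separation is disjoint from `D` -/
theorem case_one {G : SimpleGraph V} {k t B N : ℕ} (hk : 1 ≤ k) (hcod : Cod G t)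
    (hB : 2 * t + 2 ≤ B) (hN : N = (t + 13) * B) {U D T P Q : Finset V} {ω : V → ℕ} {s : V}
    (hcfg : Cfg G t B N U D T ω) (hsep : Sep G T s P Q) (hQ : ∀ d ∈ D, d ∉ Q)
    (ih : IH G k t B N U D T ω) : ∃ D0, Good G k (bd t B) U D0 := by
  obtain ⟨hDU, hne, hb, hdom, hDT, hwT, hinv⟩ := hcfg
  have hBpos : 0 < B := by omega
  have hNB : N + B = (t + 14) * B := by rw [hN]; ring
  have hw : ∑ x, ω x ≤ (t + 14) * B := hNB ▸ hinv.le
  have he : ∀ c ∈ Q, ω c = B → ∀ x ∈ T, G.Adj c x → x ∈ Q ∨ x = s ∨ G.Adj s x :=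
    fun c hc _ x hx hcx => hsep.nbr hc hx hcx
  have hg : ∀ r ∈ Q, ∀ y, ω y ≠ 0 → G.Adj r y → y ∈ Q ∨ y = s ∨ G.Adj s y :=
    fun r hr y hy hry => hsep.nbr hr (hwT y hy) hry
  have hDs : ∀ d ∈ D, ∀ r ∈ Q, G.Adj d r → d = s ∨ G.Adj d s := by
    intro d hd r hr hdr
    rcases (hsep.nbr hr (hDT hd) hdr.symm).resolve_left (hQ d hd) with h | h
    · exact Or.inl h
    · exact Or.inr h.symm
  have hout0 : ∀ d ∈ D, (D.filter (fun v => G.Adj d v ∧ v ∉ D)).card ≤ t := by
    intro d _
    rw [Finset.filter_false_of_mem (fun v hv h => h.2 hv)]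
    exact Nat.zero_le _
  set nf := ∑ r ∈ Q.filter (fun r => ω r ≠ B), ω r with hnf
  by_cases ha : 0 < (fl B ω Q).card
  · -- some full vertex is dropped
    set σ := nf + (fl B ω Q).card with hσ
    obtain ⟨hinv', hcost⟩ := inv_one (σ := σ) hcod hb.le hB hN.ge hinv hsep.sQ hg le_rfl
    have hb' := step_base (σ := σ) hcod hb hdom (D1 := D) subset_rfl hQ hsep.sQ
      (fun d _ v hv _ => Or.inl hv) he (Or.inl ⟨hDs, le_rfl⟩)
    rcases Finset.eq_empty_or_nonempty (nD G B D (upd G B σ ω Q s)) with h0 | h0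
    · exact good_of_empty hk hcod hBpos hDU hb hw (hNB ▸ hinv'.le) subset_rfl hne hout0 h0
    · refine ih _ univ _ (Cfg.univ (nD_sub.trans hDU) h0 hb' hinv') (Or.inr ⟨nD_card, Or.inl ?_⟩)
      omega
  · have ha0 : (fl B ω Q).card = 0 := by omega
    have hfl : ∀ c ∈ Q, ω c ≠ B := by
      intro c hc hcB
      have h1 : c ∈ fl B ω Q := Finset.mem_filter.2 ⟨hc, hcB⟩
      rw [Finset.card_eq_zero.1 ha0] at h1
      exact absurd h1 (Finset.notMem_empty _)
    have hinc : ∀ x, inc G B ω Q x = 0 := by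
      intro x
      unfold inc
      rw [Finset.card_eq_zero.1 ha0]
      simp
    have hTcard : (T \ Q).card < T.card := by
      apply Finset.card_lt_card
      refine ⟨Finset.sdiff_subset, ?_⟩
      intro hsub
      obtain ⟨q, hq⟩ := hsep.qne
      exact (Finset.mem_sdiff.1 (hsub (hsep.QT hq))).2 hq
    -- values of the new weights
    have hoff : ∀ σ x, x ≠ s → x ∉ Q → upd G B σ ω Q s x = ω x := by
      intro σ x hxs hxQ
      have := hb.le x
      unfold upd
      rw [if_neg hxQ, if_neg hxs, hinc]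
      split_ifs
      · rw [add_zero]
        exact min_eq_right this
      · rfl
    have hon : ∀ σ x, x ∈ Q → upd G B σ ω Q s x = 0 := by
      intro σ x hxQ
      unfold upd
      rw [if_pos hxQ]
    have hss : ∀ σ, upd G B σ ω Q s s = min B (ω s + σ) := by
      intro σ
      unfold upd
      rw [if_neg hsep.sQ, if_pos rfl]
    -- new full vertices
    have hfull : ∀ σ x, upd G B σ ω Q s x = B → (x = s → ω s = B) → ω x = B := by
      intro σ x hx hxs
      by_cases h1 : x ∈ Q
      · rw [hon σ x h1] at hx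
        omega
      · by_cases h2 : x = s
        · rw [h2]
          exact hxs h2
        · rw [hoff σ x h2 h1] at hx
          exact hx
    have hwT' : ∀ σ x, upd G B σ ω Q s x ≠ 0 → x ∈ T \ Q := by
      intro σ x hx
      by_cases h1 : x ∈ Q
      · exact absurd (hon σ x h1) hx
      · refine Finset.mem_sdiff.2 ⟨?_, h1⟩
        by_cases h2 : x = s
        · rw [h2]
          exact hsep.sT
        · rw [hoff σ x h2 h1] at hx
          exact hwT x hx
    have hDT' : D ⊆ T \ Q := fun d hd => Finset.mem_sdiff.2 ⟨hDT hd, hQ d hd⟩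
    by_cases hNs : ∃ d ∈ D, d = s ∨ G.Adj d s
    · obtain ⟨d0, hd0, hd0s⟩ := hNs
      have hsB : ω s ≠ B := by
        intro h
        have h1 := hb.sep s h d0 hd0
        rcases hd0s with h2 | h2
        · exact h1.1 h2
        · exact h1.2 h2.symm
      obtain ⟨hinv', hcost⟩ := inv_one (σ := nf) hcod hb.le hB hN.ge hinv hsep.sQ hg
        (Nat.le_add_right _ _)
      have hb' := step_base (σ := nf) hcod hb hdom (D1 := D) subset_rfl hQ hsep.sQ
        (fun d _ v hv _ => Or.inl hv) he (Or.inl ⟨hDs, by omega⟩)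
      by_cases hfB : B ≤ ω s + nf
      · -- `s` becomes full
        have hs' : upd G B nf ω Q s s = B := by
          rw [hss]
          exact min_eq_left hfB
        rcases Finset.eq_empty_or_nonempty (nD G B D (upd G B nf ω Q s)) with h0 | h0
        · exact good_of_empty hk hcod hBpos hDU hb hw (hNB ▸ hinv'.le) subset_rfl hne hout0 h0
        · refine ih _ univ _ (Cfg.univ (nD_sub.trans hDU) h0 hb' hinv') (Or.inl ?_)
          apply Finset.card_lt_card
          refine ⟨nD_sub, ?_⟩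
          intro hsub
          have h1 := (Finset.mem_filter.1 (hsub hd0)).2 s hs'
          rcases hd0s with h2 | h2
          · exact h1.1 h2
          · exact h1.2 h2.symm
      · -- no new full vertex
        have hsn : upd G B nf ω Q s s ≠ B := by
          rw [hss, min_eq_right (by omega)]
          omega
        have hfull' : ∀ x, upd G B nf ω Q s x = B → ω x = B := fun x hx =>
          hfull nf x hx (fun e => absurd (e ▸ hx) hsn)
        have hDeq : nD G B D (upd G B nf ω Q s) = D := by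
          apply Finset.filter_true_of_mem
          intro d hd c hc
          exact hb.sep c (hfull' c hc) d hd
        rw [hDeq] at hb'
        refine ih D (T \ Q) _ ⟨hDU, hne, hb', ?_, hDT', hwT' nf, hinv'⟩
          (Or.inr ⟨le_rfl, Or.inr ⟨by omega, hTcard⟩⟩)
        -- domination
        intro v hv hc hd
        obtain ⟨c, hcB, hcv⟩ := hc
        obtain ⟨d, hd, hdv⟩ := hd
        obtain ⟨x, hxT, hx⟩ := hdom v hv ⟨c, hfull' c hcB, hcv⟩ ⟨d, hd, hdv⟩
        by_cases hxQ : x ∈ Q
        · refine ⟨s, Finset.mem_sdiff.2 ⟨hsep.sT, hsep.sQ⟩, ?_⟩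
          intro y hy hvy
          have hy' : y ∈ D ∨ ω y = B := hy.imp id (hfull' y)
          have hxy := hx y hy' hvy
          have hxc := hx c (Or.inr (hfull' c hcB)) hcv.symm
          have hxd := hx d (Or.inl hd) hdv.symm
          have hyT : y ∈ T := by
            rcases hy' with h | h
            · exact hDT h
            · exact hwT y (by omega)
          have hyQ : y ∉ Q := by
            rcases hy' with h | h
            · exact hQ y h
            · exact fun h1 => hfl y h1 h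
          rcases (hsep.nbr hxQ hyT hxy).resolve_left hyQ with h | h
          · exfalso
            subst h
            rcases hy' with h | h
            · -- `s ∈ D` is adjacent to a full vertex
              have hcT : c ∈ T := hwT c (by rw [hfull' c hcB]; omega)
              rcases (hsep.nbr hxQ hcT hxc).resolve_left
                (fun h1 => hfl c h1 (hfull' c hcB)) with h2 | h2
              · exact (hb.sep c (hfull' c hcB) y h).1 h2.symm
              · exact (hb.sep c (hfull' c hcB) y h).2 h2.symm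
            · exact hsB h
          · exact h
        · exact ⟨x, Finset.mem_sdiff.2 ⟨hxT, hxQ⟩, fun y hy hvy =>
            hx y (hy.imp id (hfull' y)) hvy⟩
    · -- the side does not see `D`
      push Not at hNs
      have hnoQ : ∀ d ∈ D, ∀ r ∈ Q, ¬ G.Adj d r := by
        intro d hd r hr hdr
        rcases hDs d hd r hr hdr with h | h
        · exact (hNs d hd).1 h
        · exact (hNs d hd).2 h
      obtain ⟨hinv', hcost⟩ := inv_one (σ := 0) hcod hb.le hB hN.ge hinv hsep.sQ hg
        (Nat.zero_le _)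
      have hb' := step_base (σ := 0) hcod hb hdom (D1 := D) subset_rfl hQ hsep.sQ
        (fun d _ v hv _ => Or.inl hv) he
        (Or.inr ⟨hnoQ, fun c hc hcB => absurd hcB (hfl c hc)⟩)
      have hfull' : ∀ x, upd G B 0 ω Q s x = B → ω x = B := by
        intro x hx
        apply hfull 0 x hx
        rintro rfl
        rw [hss, add_zero, min_eq_right (hb.le _)] at hx
        exact hx
      have hDeq : nD G B D (upd G B 0 ω Q s) = D := by
        apply Finset.filter_true_of_mem
        intro d hd c hc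
        exact hb.sep c (hfull' c hc) d hd
      rw [hDeq] at hb'
      refine ih D (T \ Q) _ ⟨hDU, hne, hb', ?_, hDT', hwT' 0, hinv'⟩
        (Or.inr ⟨le_rfl, Or.inr ⟨by omega, hTcard⟩⟩)
      intro v hv hc hd
      obtain ⟨c, hcB, hcv⟩ := hc
      obtain ⟨d, hd, hdv⟩ := hd
      obtain ⟨x, hxT, hx⟩ := hdom v hv ⟨c, hfull' c hcB, hcv⟩ ⟨d, hd, hdv⟩
      refine ⟨x, Finset.mem_sdiff.2 ⟨hxT, ?_⟩, fun y hy hvy =>
        hx y (hy.imp id (hfull' y)) hvy⟩
      intro hxQ
      exact hnoQ d hd x hxQ (hx d (Or.inl hd) hdv.symm).symm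

/-- Case 2: the part of `D` on one side consists of neighbours of the centre -/
theorem case_two {G : SimpleGraph V} {k t B N : ℕ} (hk : 1 ≤ k) (hcod : Cod G t)
    (hB : 2 * t + 2 ≤ B) (hN : N = (t + 13) * B) {U D T P Q : Finset V} {ω : V → ℕ} {s : V}
    (hcfg : Cfg G t B N U D T ω) (hsep : Sep G T s P Q) {d : V} (hd : d ∈ D) (hdQ : d ∈ Q)
    (hQ : ∀ z ∈ D, z ∈ Q → G.Adj s z) : ∃ D0, Good G k (bd t B) U D0 := by
  obtain ⟨hDU, hne, hb, hdom, hDT, hwT, hinv⟩ := hcfg
  have hNB : N + B = (t + 14) * B := by rw [hN]; ring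
  refine ⟨{d}, good_single hk hcod (by omega) hDU hb (hNB ▸ hinv.le) hd (m := t + 1) ?_ ?_⟩
  · have h1 : D.filter (fun v => G.Adj d v)
        ⊆ insert s (univ.filter (fun v => G.Adj d v ∧ G.Adj s v)) := by
      intro v hv
      obtain ⟨hvD, hdv⟩ := Finset.mem_filter.1 hv
      rcases hsep.nbr hdQ (hDT hvD) hdv with h | h | h
      · apply Finset.mem_insert_of_mem
        simp [hdv, hQ v hvD h]
      · rw [h]
        exact Finset.mem_insert_self _ _
      · apply Finset.mem_insert_of_mem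
        simp [hdv, h]
    refine le_trans (Finset.card_le_card h1) (le_trans (Finset.card_insert_le _ _) ?_)
    exact Nat.succ_le_succ (hcod d s (fun e => hsep.sQ (e ▸ hdQ)))
  · have e1 : (t + 1) * (t + 14) = (t + 1) + (t + 1) * (t + 13) := by ring
    omega

/-- Case 3: both sides contain vertices of `D`, no vertex of a side is adjacent to the centre -/
theorem case_three {G : SimpleGraph V} {k t B N : ℕ} (hk : 1 ≤ k) (hcod : Cod G t)
    (hB : 2 * t + 2 ≤ B) (hN : N = (t + 13) * B) {U D T P Q : Finset V} {ω : V → ℕ} {s : V}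
    (hcfg : Cfg G t B N U D T ω) (hsep : Sep G T s P Q) (hP : ∀ p ∈ P, ¬ G.Adj s p)
    (hQ : ∀ q ∈ Q, ¬ G.Adj s q) (hDP : ∃ d ∈ D, d ∈ P) (hDQ : ∃ d ∈ D, d ∈ Q)
    (hle : ∑ x ∈ Q, ω x ≤ ∑ x ∈ P, ω x)
    (ih : IH G k t B N U D T ω) : ∃ D0, Good G k (bd t B) U D0 := by
  obtain ⟨hDU, hne, hb, hdom, hDT, hwT, hinv⟩ := hcfg
  have hBpos : 0 < B := by omega
  have hNB : N + B = (t + 14) * B := by rw [hN]; ring
  have hw : ∑ x, ω x ≤ (t + 14) * B := hNB ▸ hinv.le
  have hq : ∑ x ∈ univ.filter (fun x => x ∉ cn G s ∧ x ∉ P), ω x ≤ ∑ x ∈ P, ω x := by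
    refine le_trans ?_ hle
    rw [← Finset.sum_filter_ne_zero]
    apply Finset.sum_le_sum_of_subset
    intro x hx
    obtain ⟨hx1, hx0⟩ := Finset.mem_filter.1 hx
    obtain ⟨-, hx2, hx3⟩ := Finset.mem_filter.1 hx1
    rcases hsep.cov x (hwT x hx0) with h | h | h
    · exact absurd h hx3
    · exact h
    · exact absurd (mem_cn.2 h) hx2
  have hinv' := inv_three hcod hb.le hB hN.ge hinv hsep.sP hP hq
  have hsB : upd G B B ω P s s = B := by
    unfold upd
    rw [if_neg hsep.sP, if_pos rfl]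
    omega
  set D1 := D.filter (fun d => d ∈ Q) with hD1
  have hD1D : D1 ⊆ D := Finset.filter_subset _ _
  have hD1Q : ∀ d ∈ D1, d ∈ Q := fun d hd => (Finset.mem_filter.1 hd).2
  have hnb : ∀ d ∈ D1, ∀ v ∈ D, G.Adj d v → v ∈ D1 ∨ G.Adj s v := by
    intro d hd v hv hdv
    rcases hsep.nbr (hD1Q d hd) (hDT hv) hdv with h | h | h
    · exact Or.inl (Finset.mem_filter.2 ⟨hv, h⟩)
    · exfalso
      rw [h] at hdv
      exact hQ d (hD1Q d hd) hdv.symm
    · exact Or.inr h
  have hb' := step_base (σ := B) hcod hb hdom (D1 := D1) hD1D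
    (fun d hd hdP => hsep.dis d hdP (hD1Q d hd)) hsep.sP
    (fun d hd v hv hdv => (hnb d hd v hv hdv).imp id (fun h => ⟨hsB, h⟩))
    (fun c hc _ x hx hcx => hsep.symm.nbr hc hx hcx)
    (Or.inr ⟨fun d hd r hr hdr => hsep.nadj r hr d (hD1Q d hd) hdr.symm,
      fun c hc _ hcs => hP c hc hcs.symm⟩)
  have hne1 : D1.Nonempty := by
    obtain ⟨d, hd, hdQ⟩ := hDQ
    exact ⟨d, Finset.mem_filter.2 ⟨hd, hdQ⟩⟩
  rcases Finset.eq_empty_or_nonempty (nD G B D1 (upd G B B ω P s)) with h0 | h0
  · refine good_of_empty hk hcod hBpos hDU hb hw (hNB ▸ hinv'.le) hD1D hne1 ?_ h0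
    intro d hd
    have hds : d ≠ s := fun e => hsep.sQ (e ▸ hD1Q d hd)
    refine le_trans (Finset.card_le_card ?_) (hcod d s hds)
    intro v hv
    obtain ⟨hvD, hdv, hvD1⟩ := Finset.mem_filter.1 hv
    have := (hnb d hd v hvD hdv).resolve_left hvD1
    simp [hdv, this]
  · refine ih _ univ _ (Cfg.univ ((nD_sub.trans hD1D).trans hDU) h0 hb' hinv') (Or.inl ?_)
    refine lt_of_le_of_lt nD_card (Finset.card_lt_card ⟨hD1D, ?_⟩)
    intro hsub
    obtain ⟨d, hd, hdP⟩ := hDP
    exact hsep.dis d hdP (hD1Q d (hsub hd))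

end

end Pool.Agent.Lib.MP_4f8534_co.Codeg
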