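import Mathlib
import Pool.Agent.Lib.MP_4f8534_co.Codeg.Cases

set_option autoImplicit false

/-!
The induction, and the colouring.
-/

open Classical Finset

namespace Pool.Agent.Lib.MP_4f8534_co.Codeg

noncomputable section

variable {V : Type} [Fintype V]

theorem cfg_step {G : SimpleGraph V} {k t B N : ℕ} (hk : 1 ≤ k) (hcod : Cod G t)
    (hB : 2 * t + 2 ≤ B) (hN : N = (t + 13) * B)
    (hC : ∀ T : Set V, (G.induce T).Colorable k ∨
      ∃ S : Set V, S ⊆ T ∧ (∃ v ∈ S, ∀ w ∈ S, w ≠ v → G.Adj v w) ∧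
        ∃ a b : ↥(T \ S), ¬ (G.induce (T \ S)).Reachable a b)
    {U D T : Finset V} {ω : V → ℕ} (hcfg : Cfg G t B N U D T ω)
    (ih : IH G k t B N U D T ω) : ∃ D0, Good G k (bd t B) U D0 := by
  have hNB : N + B = (t + 14) * B := by rw [hN]; ring
  by_cases hcol : (G.induce (D : Set V)).Colorable k
  · refine ⟨D, hcfg.sub, hcfg.ne, hcol, fun d hd => ?_⟩
    have := nbr_bound hcod (by omega) hcfg.base (hNB ▸ hcfg.inv.le) hd
    unfold bd
    omega
  · obtain ⟨s, P, Q, hsep⟩ := exists_sep hC hcfg.DT hcol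
    by_cases hQ : ∀ d ∈ D, d ∉ Q
    · exact case_one hk hcod hB hN hcfg hsep hQ ih
    by_cases hP : ∀ d ∈ D, d ∉ P
    · exact case_one hk hcod hB hN hcfg hsep.symm hP ih
    push Not at hQ hP
    by_cases hQ2 : ∀ z ∈ D, z ∈ Q → G.Adj s z
    · obtain ⟨d, hd, hdQ⟩ := hQ
      exact case_two hk hcod hB hN hcfg hsep hd hdQ hQ2
    by_cases hP2 : ∀ z ∈ D, z ∈ P → G.Adj s z
    · obtain ⟨d, hd, hdP⟩ := hP
      exact case_two hk hcod hB hN hcfg hsep.symm hd hdP hP2
    push Not at hQ2 hP2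
    obtain ⟨q0, hq0D, hq0Q, hq0⟩ := hQ2
    obtain ⟨p0, hp0D, hp0P, hp0⟩ := hP2
    have hsep' : Sep G T s (P.filter (fun z => ¬ G.Adj s z)) (Q.filter (fun z => ¬ G.Adj s z)) := by
      refine ⟨hsep.sT, (Finset.filter_subset _ _).trans hsep.PT,
        (Finset.filter_subset _ _).trans hsep.QT, fun h => hsep.sP (Finset.mem_filter.1 h).1,
        fun h => hsep.sQ (Finset.mem_filter.1 h).1, ⟨p0, Finset.mem_filter.2 ⟨hp0P, hp0⟩⟩,
        ⟨q0, Finset.mem_filter.2 ⟨hq0Q, hq0⟩⟩, ?_, ?_, ?_⟩
      · intro z hz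
        by_cases hsz : G.Adj s z
        · exact Or.inr (Or.inr (Or.inr hsz))
        · rcases hsep.cov z hz with h | h | h
          · exact Or.inl (Finset.mem_filter.2 ⟨h, hsz⟩)
          · exact Or.inr (Or.inl (Finset.mem_filter.2 ⟨h, hsz⟩))
          · exact Or.inr (Or.inr h)
      · intro z hz hz'
        exact hsep.dis z (Finset.mem_filter.1 hz).1 (Finset.mem_filter.1 hz').1
      · intro p hp q hq
        exact hsep.nadj p (Finset.mem_filter.1 hp).1 q (Finset.mem_filter.1 hq).1
    have hP' : ∀ p ∈ P.filter (fun z => ¬ G.Adj s z), ¬ G.Adj s p :=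
      fun p hp => (Finset.mem_filter.1 hp).2
    have hQ' : ∀ q ∈ Q.filter (fun z => ¬ G.Adj s z), ¬ G.Adj s q :=
      fun q hq => (Finset.mem_filter.1 hq).2
    have hDP : ∃ d ∈ D, d ∈ P.filter (fun z => ¬ G.Adj s z) :=
      ⟨p0, hp0D, Finset.mem_filter.2 ⟨hp0P, hp0⟩⟩
    have hDQ : ∃ d ∈ D, d ∈ Q.filter (fun z => ¬ G.Adj s z) :=
      ⟨q0, hq0D, Finset.mem_filter.2 ⟨hq0Q, hq0⟩⟩
    rcases le_total (∑ x ∈ Q.filter (fun z => ¬ G.Adj s z), ω x)
      (∑ x ∈ P.filter (fun z => ¬ G.Adj s z), ω x) with h | h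
    · exact case_three hk hcod hB hN hcfg hsep' hP' hQ' hDP hDQ h ih
    · exact case_three hk hcod hB hN hcfg hsep'.symm hQ' hP' hDQ hDP h ih

theorem cfg_good {G : SimpleGraph V} {k t B N : ℕ} (hk : 1 ≤ k) (hcod : Cod G t)
    (hB : 2 * t + 2 ≤ B) (hN : N = (t + 13) * B)
    (hC : ∀ T : Set V, (G.induce T).Colorable k ∨
      ∃ S : Set V, S ⊆ T ∧ (∃ v ∈ S, ∀ w ∈ S, w ≠ v → G.Adj v w) ∧
        ∃ a b : ↥(T \ S), ¬ (G.induce (T \ S)).Reachable a b) {U : Finset V} :
    ∀ a b c : ℕ, ∀ D T : Finset V, ∀ ω : V → ℕ, Cfg G t B N U D T ω → D.card = a →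
      ∑ x, ω x = b → T.card = c → ∃ D0, Good G k (bd t B) U D0 := by
  intro a
  induction a using Nat.strong_induction_on with
  | _ a iha =>
  intro b
  induction b using Nat.strong_induction_on with
  | _ b ihb =>
  intro c
  induction c using Nat.strong_induction_on with
  | _ c ihc =>
  intro D T ω hcfg ha hb hc
  apply cfg_step hk hcod hB hN hC hcfg
  intro D' T' ω' hcfg' hsm
  rcases lt_or_ge D'.card a with h1 | h1
  · exact iha _ h1 _ _ D' T' ω' hcfg' rfl rfl rfl
  · rcases hsm with h2 | ⟨h2, h3⟩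
    · omega
    · have h4 : D'.card = a := by omega
      rcases lt_or_ge (∑ x, ω' x) b with h5 | h5
      · exact ihb _ h5 _ D' T' ω' hcfg' h4 rfl rfl
      · rcases h3 with h6 | ⟨h6, h7⟩
        · omega
        · exact ihc _ (by omega) D' T' ω' hcfg' h4 (by omega) rfl

/-- every nonempty set of vertices contains a good part -/
theorem exists_good {G : SimpleGraph V} {k t : ℕ} (hk : 1 ≤ k) (hcod : Cod G t)
    (hC : ∀ T : Set V, (G.induce T).Colorable k ∨
      ∃ S : Set V, S ⊆ T ∧ (∃ v ∈ S, ∀ w ∈ S, w ≠ v → G.Adj v w) ∧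
        ∃ a b : ↥(T \ S), ¬ (G.induce (T \ S)).Reachable a b) {U : Finset V}
    (hU : U.Nonempty) : ∃ D, Good G k (bd t (2 * t + 2)) U D := by
  refine cfg_good (B := 2 * t + 2) (N := (t + 13) * (2 * t + 2)) hk hcod le_rfl rfl hC _ _ _ U
    univ (fun _ => 0) (Cfg.univ subset_rfl hU ?_ (Or.inl (by simp))) rfl rfl rfl
  refine ⟨fun _ => Nat.zero_le _, ?_, ?_⟩
  · intro c hc
    exact absurd hc (by omega)
  · intro d _
    have h1 : Out G (2 * t + 2) U U (fun _ => 0) d = ∅ := by
      apply Finset.filter_eq_empty_iff.2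
      intro v hv h
      exact h.2.1 hv
    rw [h1]
    exact Nat.zero_le _

/-- the colouring -/
theorem colour {G : SimpleGraph V} {k C : ℕ} (hk : 1 ≤ k)
    (h : ∀ U : Finset V, U.Nonempty → ∃ D, Good G k C U D) : G.Colorable (k * (C + 1)) := by
  have main : ∀ n : ℕ, ∀ U : Finset V, U.card = n →
      ∃ c : V → Fin k × Fin (C + 1), ∀ u ∈ U, ∀ v ∈ U, G.Adj u v → c u ≠ c v := by
    intro n
    induction n using Nat.strong_induction_on with
    | _ n ih =>
      intro U hU
      rcases Finset.eq_empty_or_nonempty U with h0 | h0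
      · subst h0
        exact ⟨fun _ => (⟨0, by omega⟩, 0), fun u hu => absurd hu (Finset.notMem_empty _)⟩
      · obtain ⟨D, hDU, hDne, ⟨e⟩, hdeg⟩ := h U h0
        have hlt : (U \ D).card < n := by
          rw [← hU]
          apply Finset.card_lt_card
          refine ⟨Finset.sdiff_subset, ?_⟩
          intro hsub
          obtain ⟨d, hd⟩ := hDne
          exact (Finset.mem_sdiff.1 (hsub (hDU hd))).2 hd
        obtain ⟨c, hc⟩ := ih _ hlt (U \ D) rfl
        have hj : ∀ d : ↥(D : Set V), ∃ j : Fin (C + 1), ∀ u ∈ U, u ∉ D → G.Adj d.1 u →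
            c u ≠ (e d, j) := by
          intro d
          by_contra hcon
          push Not at hcon
          choose f hf using hcon
          have h1 : (univ : Finset (Fin (C + 1))).card
              ≤ (U.filter (fun v => G.Adj d.1 v ∧ v ∉ D)).card := by
            apply Finset.card_le_card_of_injOn f
            · intro j _
              exact Finset.mem_coe.2 (Finset.mem_filter.2 ⟨(hf j).1, (hf j).2.2.1, (hf j).2.1⟩)
            · intro i _ j _ hij
              have h2 := (hf i).2.2.2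
              have h3 := (hf j).2.2.2
              rw [hij, h3] at h2
              exact (congrArg Prod.snd h2).symm
          rw [Finset.card_univ, Fintype.card_fin] at h1
          have h2 := hdeg d.1 d.2
          omega
        choose j hj using hj
        refine ⟨fun x => if h : x ∈ (D : Set V) then (e ⟨x, h⟩, j ⟨x, h⟩) else c x, ?_⟩
        intro u hu v hv huv
        by_cases h1 : u ∈ (D : Set V)
        · by_cases h2 : v ∈ (D : Set V)
          · simp only [dif_pos h1, dif_pos h2]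
            intro heq
            have h5 : e ⟨u, h1⟩ ≠ e ⟨v, h2⟩ := e.valid (show G.Adj u v from huv)
            exact h5 (congrArg Prod.fst heq)
          · simp only [dif_pos h1, dif_neg h2]
            exact (hj ⟨u, h1⟩ v hv (by simpa using h2) huv).symm
        · by_cases h2 : v ∈ (D : Set V)
          · simp only [dif_neg h1, dif_pos h2]
            exact hj ⟨v, h2⟩ u hu (by simpa using h1) huv.symm
          · simp only [dif_neg h1, dif_neg h2]
            exact hc u (Finset.mem_sdiff.2 ⟨hu, by simpa using h1⟩) v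
              (Finset.mem_sdiff.2 ⟨hv, by simpa using h2⟩) huv
  obtain ⟨c, hc⟩ := main _ univ rfl
  have h1 : G.Colorable (Fintype.card (Fin k × Fin (C + 1))) :=
    (SimpleGraph.Coloring.mk c (fun {u v} huv =>
      hc u (Finset.mem_univ _) v (Finset.mem_univ _) huv)).colorable
  rw [Fintype.card_prod, Fintype.card_fin, Fintype.card_fin] at h1
  exact h1

end

end Pool.Agent.Lib.MP_4f8534_co.Codeg
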